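import Pool.Agent.H742Z.GP.Defs2

set_option autoImplicit false

open scoped ENNReal
open MeasureTheory ProbabilityTheory Filter Topology Set

namespace Pool.Agent.H742Z.GP

universe u

namespace BGaux

variable {d : ℕ}

lemma ball_trans {x y z : V d} {a b : ℕ} (h1 : y ∈ ball x a) (h2 : z ∈ ball y b) :
    z ∈ ball x (a + b) := by
  rw [mem_ball] at *
  intro i
  have := h1 i
  have := h2 i
  push_cast
  rw [abs_le] at *
  constructor <;> linarith [(abs_le.mp (h1 i)).1, (abs_le.mp (h1 i)).2, (abs_le.mp (h2 i)).1,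
    (abs_le.mp (h2 i)).2]

lemma split (m : ℕ) : ∀ (x : V d) (l : List (V d)), List.IsChain Adj (x :: l) →
    ∃ y, y ∈ ball x m ∧ List.IsChain Adj (y :: l.drop m) ∧ ∀ u ∈ l.take m, u ∈ ball x m := by
  induction m with
  | zero => intro x l h; exact ⟨x, self_mem_ball _ _, by simpa using h, by simp⟩
  | succ m ih =>
    intro x l h
    cases l with
    | nil => exact ⟨x, self_mem_ball _ _, by simp, by simp⟩
    | cons z l =>
      rw [List.isChain_cons_cons] at h
      obtain ⟨y, hy, hc, ht⟩ := ih z l h.2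
      have hz : z ∈ ball x 1 := by
        rw [mem_ball]; intro i; simpa using h.1.symm.abs_le i
      refine ⟨y, by rw [add_comm]; exact ball_trans hz hy, by simpa using hc, ?_⟩
      intro u hu
      simp only [List.take_succ_cons, List.mem_cons] at hu
      rcases hu with rfl | hu
      · exact ball_mono x (by omega) hz
      · rw [add_comm]; exact ball_trans hz (ht u hu)

/-- the family of coarse tubes -/
noncomputable def fam (L : ℕ) : ℕ → V d → Finset (Finset (V d))
  | 0, _ => {∅}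
  | k + 1, c => by
    classical
    exact (ball (0 : V d) 1).biUnion fun δ =>
      (fam L k (c + δ)).image fun R => ball ((L : ℤ) • c) (L + L) ∪ R

lemma card_fam (L k : ℕ) : ∀ c : V d, (fam L k c).card ≤ (3 ^ d) ^ k := by
  induction k with
  | zero => intro c; simp [fam]
  | succ k ih =>
    intro c
    simp only [fam]
    refine Finset.card_biUnion_le.trans ?_
    refine (Finset.sum_le_card_nsmul _ _ ((3 ^ d) ^ k)
      fun δ _ => Finset.card_image_le.trans (ih _)).trans ?_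
    rw [card_ball, smul_eq_mul, pow_succ, mul_comm]

lemma card_mem_fam (L k : ℕ) : ∀ c : V d, ∀ R ∈ fam L k c,
    R.card ≤ k * (2 * (L + L) + 1) ^ d := by
  induction k with
  | zero => intro c R hR; simp [fam] at hR; simp [hR]
  | succ k ih =>
    intro c R hR
    simp only [fam, Finset.mem_biUnion, Finset.mem_image] at hR
    obtain ⟨δ, _, R', hR', rfl⟩ := hR
    refine (Finset.card_union_le _ _).trans ?_
    rw [card_ball]
    have := ih _ _ hR'
    nlinarith

lemma cover (L k : ℕ) : ∀ (c x : V d) (l : List (V d)), x ∈ ball ((L : ℤ) • c) L →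
    List.IsChain Adj (x :: l) → l.length ≤ k * L → ∃ R ∈ fam L k c, ∀ u ∈ l, u ∈ R := by
  induction k with
  | zero =>
    intro c x l _ _ hl
    have : l = [] := List.length_eq_zero_iff.mp (by omega)
    exact ⟨∅, by simp [fam], by simp [this]⟩
  | succ k ih =>
    intro c x l hx hc hl
    obtain ⟨y, hy, hc', ht⟩ := split L x l hc
    have hy' := ball_trans hx hy
    let δ : V d := fun i => if (L : ℤ) ≤ y i - L * c i then 1 else
      if y i - L * c i ≤ -(L : ℤ) then -1 else 0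
    have hδ : δ ∈ ball (0 : V d) 1 := by
      rw [mem_ball]; intro i
      simp only [δ]
      split_ifs <;> simp
    have hy2 : y ∈ ball ((L : ℤ) • (c + δ)) L := by
      rw [mem_ball] at hy' ⊢
      intro i
      have := abs_le.mp (hy' i)
      simp only [Pi.smul_apply, smul_eq_mul, Pi.add_apply, δ] at this ⊢
      push_cast at this
      rw [abs_le]
      split_ifs <;> constructor <;> linarith [this.1, this.2]
    obtain ⟨R, hR, hRl⟩ := ih (c + δ) y (l.drop L) hy2 hc' (by
      rw [List.length_drop]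
      have : (k + 1) * L = k * L + L := by ring
      omega)
    classical
    refine ⟨ball ((L : ℤ) • c) (L + L) ∪ R, ?_, ?_⟩
    · simp only [fam, Finset.mem_biUnion, Finset.mem_image]
      exact ⟨δ, hδ, R, hR, by congr⟩
    · intro u hu
      rw [← List.take_append_drop L l, List.mem_append] at hu
      rcases hu with hu | hu
      · exact Finset.mem_union_left _ (ball_trans hx (ht u hu))
      · exact Finset.mem_union_right _ (hRl u hu)

lemma sum_le_of_subset {l : List (V d)} (hl : l.Nodup) {R : Finset (V d)} (h : ∀ u ∈ l, u ∈ R)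
    (w : V d → ℝ≥0∞) : (l.map w).sum ≤ ∑ v ∈ R, w v := by
  classical
  rw [← List.sum_toFinset w hl]
  exact Finset.sum_le_sum_of_subset fun u hu => h u (List.mem_toFinset.mp hu)

lemma nat_le (m s : ℕ) : (m : ℝ≥0∞) ≤ s + 2 ^ m / 2 ^ s := by
  rcases le_total m s with h | h
  · exact le_add_right (by exact_mod_cast h)
  · obtain ⟨t, rfl⟩ := Nat.exists_eq_add_of_le h
    rw [pow_add, mul_comm, ENNReal.mul_div_cancel_right (by simp) (by simp)]
    push_cast
    gcongr
    exact_mod_cast (Nat.lt_two_pow_self (n := t)).le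

lemma sum_ind_le {Ω : Type u} (E : V d → Set Ω) (ω : Ω) (R : Finset (V d)) (s : ℕ) :
    ∑ v ∈ R, (E v).indicator (1 : Ω → ℝ≥0∞) ω ≤
      s + (∏ v ∈ R, (1 + (E v).indicator (1 : Ω → ℝ≥0∞) ω)) / 2 ^ s := by
  classical
  have h1 : ∑ v ∈ R, (E v).indicator (1 : Ω → ℝ≥0∞) ω = ((R.filter fun v => ω ∈ E v).card : ℕ) := by
    simp [Set.indicator_apply]
  have h2 : ∏ v ∈ R, (1 + (E v).indicator (1 : Ω → ℝ≥0∞) ω) =
      2 ^ (R.filter fun v => ω ∈ E v).card := by
    rw [← Finset.prod_const, Finset.prod_filter]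
    refine Finset.prod_congr rfl fun v _ => ?_
    by_cases h : ω ∈ E v <;> simp [h, one_add_one_eq_two]
  rw [h1, h2]
  exact nat_le _ _

lemma lintegral_prod_le {Ω : Type u} [MeasurableSpace Ω] (P : Measure Ω) (E : V d → Set Ω)
    (hE : ∀ v, MeasurableSet (E v)) (hi : iIndepSet E P) (q : ℝ≥0∞) (hq : ∀ v, P (E v) ≤ q)
    (R : Finset (V d)) :
    ∫⁻ ω, ∏ v ∈ R, (1 + (E v).indicator (1 : Ω → ℝ≥0∞) ω) ∂P ≤ (1 + q) ^ R.card := by
  classical
  have h1 : ∀ (T : Finset (V d)) (ω : Ω), ∏ v ∈ T, (E v).indicator (1 : Ω → ℝ≥0∞) ω =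
      (⋂ v ∈ T, E v).indicator (1 : Ω → ℝ≥0∞) ω := by
    intro T ω
    by_cases h : ω ∈ ⋂ v ∈ T, E v
    · rw [Set.indicator_of_mem h]
      simp only [Set.mem_iInter] at h
      exact Finset.prod_eq_one fun v hv => by simp [h v hv]
    · rw [Set.indicator_of_notMem h]
      simp only [Set.mem_iInter, not_forall] at h
      obtain ⟨v, hv, hω⟩ := h
      exact Finset.prod_eq_zero hv (by simp [hω])
  have hm : ∀ T : Finset (V d), MeasurableSet (⋂ v ∈ T, E v) := fun T =>
    Finset.measurableSet_biInter T fun v _ => hE v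
  simp only [Finset.prod_one_add, h1]
  rw [lintegral_finsetSum _ fun T _ => measurable_one.indicator (hm T)]
  simp only [lintegral_indicator_one (hm _), hi.meas_biInter]
  rw [← Finset.prod_one_add, ← Finset.prod_const]
  exact Finset.prod_le_prod' fun v _ => by gcongr; exact hq v

lemma one_add_pow_le (x : ℝ≥0∞) (M : ℕ) (h : x * M ≤ 1) : (1 + x) ^ M ≤ 4 := by
  rcases Nat.eq_zero_or_pos M with rfl | hM
  · simp
  have hx : x ≠ ∞ := by
    rintro rfl
    rw [ENNReal.top_mul (by exact_mod_cast hM.ne')] at h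
    simp at h
  lift x to NNReal using hx
  have h' : (x : ℝ) * M ≤ 1 := by exact_mod_cast h
  have h2 : (1 + (x : ℝ)) ^ M ≤ 4 := by
    calc (1 + (x : ℝ)) ^ M ≤ (Real.exp x) ^ M := by
          gcongr
          linarith [Real.add_one_le_exp (x : ℝ)]
      _ = Real.exp (x * M) := by rw [← Real.exp_nat_mul, mul_comm]
      _ ≤ Real.exp 1 := Real.exp_le_exp.mpr h'
      _ ≤ 4 := by linarith [Real.exp_one_lt_d9]
  exact_mod_cast h2

end BGaux

open BGaux

theorem bernoulli_greedy (d : ℕ) (hd : 1 ≤ d) : BG.{u} d := by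
  classical
  refine ⟨((4 * (2 * d + 2 * 5 ^ d + 1) + 3 ^ d + 1 : ℕ) : ℝ≥0∞), ENNReal.natCast_ne_top _, ?_⟩
  intro Ω _ P E hE hi r hr n
  have hP := hi.isProbabilityMeasure
  have hmi : ∀ v, Measurable ((E v).indicator (1 : Ω → ℝ≥0∞)) := fun v =>
    measurable_one.indicator (hE v)
  by_cases h1 : 1 ≤ r
  · have : ∀ ω, GE n 0 (fun v => (E v).indicator (1 : Ω → ℝ≥0∞) ω) ≤ n := by
      intro ω
      refine GE_le fun l hl => ?_
      have := List.sum_le_card_nsmul (l.map fun v => (E v).indicator (1 : Ω → ℝ≥0∞) ω) 1 (by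
        intro x hx
        obtain ⟨v, _, rfl⟩ := List.mem_map.mp hx
        by_cases h : ω ∈ E v <;> simp [h])
      simpa [hl.1] using this
    refine (lintegral_mono this).trans ?_
    rw [lintegral_const, measure_univ, mul_one]
    calc (n : ℝ≥0∞) = 1 * n * 1 := by simp
      _ ≤ _ := by
        gcongr
        exact_mod_cast Nat.le_add_left 1 _
  push Not at h1
  by_cases h2 : n * r ≤ 1
  · rcases Nat.eq_zero_or_pos n with rfl | hn
    · have : ∀ ω, GE 0 0 (fun v => (E v).indicator (1 : Ω → ℝ≥0∞) ω) ≤ 0 := by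
        intro ω
        refine GE_le fun l hl => ?_
        have : l = [] := List.length_eq_zero_iff.mp hl.1
        simp [this]
      refine (lintegral_mono this).trans ?_
      simp
    have : ∀ ω, GE n 0 (fun v => (E v).indicator (1 : Ω → ℝ≥0∞) ω) ≤
        ∑ v ∈ ball (0 : V d) n, (E v).indicator (1 : Ω → ℝ≥0∞) ω := fun ω =>
      GE_le fun l hl => sum_le_of_subset (List.nodup_cons.mp hl.2.1).2 hl.mem_ball _
    refine (lintegral_mono this).trans ?_
    rw [lintegral_finsetSum _ fun v _ => hmi v]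
    simp only [lintegral_indicator_one (hE _)]
    refine (Finset.sum_le_card_nsmul _ _ (r ^ d) fun v _ => hr v).trans ?_
    rw [card_ball, nsmul_eq_mul]
    have h3 : (((2 * n + 1) ^ d : ℕ) : ℝ≥0∞) ≤ ((3 ^ d : ℕ) : ℝ≥0∞) * n ^ d := by
      have : (2 * n + 1) ^ d ≤ 3 ^ d * n ^ d := by
        rw [← mul_pow]; exact Nat.pow_le_pow_left (by omega) d
      exact_mod_cast this
    have h4 : (n * r) ^ d ≤ n * r := by
      calc (n * r) ^ d ≤ (n * r) ^ 1 := pow_le_pow_right_of_le_one' h2 hd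
        _ = _ := pow_one _
    calc (((2 * n + 1) ^ d : ℕ) : ℝ≥0∞) * r ^ d ≤ ((3 ^ d : ℕ) : ℝ≥0∞) * n ^ d * r ^ d := by gcongr
      _ = ((3 ^ d : ℕ) : ℝ≥0∞) * (n * r) ^ d := by rw [mul_pow, mul_assoc]
      _ ≤ ((3 ^ d : ℕ) : ℝ≥0∞) * (n * r) := by gcongr
      _ = ((3 ^ d : ℕ) : ℝ≥0∞) * n * r := by rw [mul_assoc]
      _ ≤ _ := by
        gcongr
        omega
  push Not at h2
  have hex : ∃ L : ℕ, 1 < ((L + 1 : ℕ) : ℝ≥0∞) * r := by
    refine ⟨n, h2.trans_le ?_⟩
    gcongr
    omega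
  obtain ⟨L, hL1, hL2, hL0⟩ : ∃ L : ℕ, 1 < ((L + 1 : ℕ) : ℝ≥0∞) * r ∧ (L : ℝ≥0∞) * r ≤ 1 ∧
      1 ≤ L := by
    have hs := Nat.find_spec hex
    have h0 : Nat.find hex ≠ 0 := by
      intro h
      rw [h] at hs
      simp at hs
      exact absurd hs h1.not_gt
    refine ⟨Nat.find hex, hs, ?_, by omega⟩
    have := Nat.find_min hex (m := Nat.find hex - 1) (by omega)
    rw [show Nat.find hex - 1 + 1 = Nat.find hex by omega] at this
    exact not_lt.mp this
  have hLn : L ≤ n := by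
    by_contra h
    have : (n : ℝ≥0∞) * r ≤ L * r := by
      gcongr
      omega
    exact absurd (this.trans hL2) h2.not_ge
  set k := n / L + 1 with hk
  have hk1 : n ≤ k * L := by
    have := Nat.lt_div_mul_add (a := n) (b := L) (by omega)
    rw [hk, add_mul, one_mul]; omega
  have hk2 : k * L ≤ 2 * n := by
    have := Nat.div_mul_le_self n L
    rw [hk, add_mul, one_mul]; omega
  have hk3 : (k : ℝ≥0∞) ≤ 4 * n * r := by
    have h5 : k * (L + 1) ≤ 4 * n := by nlinarith
    calc (k : ℝ≥0∞) = k * 1 := (mul_one _).symm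
      _ ≤ k * (((L + 1 : ℕ) : ℝ≥0∞) * r) := by gcongr
      _ = ((k * (L + 1) : ℕ) : ℝ≥0∞) * r := by push_cast; ring
      _ ≤ ((4 * n : ℕ) : ℝ≥0∞) * r := by gcongr
      _ = _ := by push_cast; ring
  set s := 2 * d * k + 2 * (5 ^ d * k) with hs
  have hpt : ∀ ω, GE n 0 (fun v => (E v).indicator (1 : Ω → ℝ≥0∞) ω) ≤
      s + ∑ R ∈ fam L k (0 : V d),
        (∏ v ∈ R, (1 + (E v).indicator (1 : Ω → ℝ≥0∞) ω)) / 2 ^ s := by
    intro ω
    refine GE_le fun l hl => ?_
    obtain ⟨R, hR, hRl⟩ := cover L k 0 0 l (by simpa using self_mem_ball _ _) hl.2.2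
      (by rw [hl.1]; exact hk1)
    refine (sum_le_of_subset (List.nodup_cons.mp hl.2.1).2 hRl _).trans
      ((sum_ind_le E ω R s).trans ?_)
    gcongr
    exact Finset.single_le_sum (f := fun R : Finset (V d) =>
      (∏ v ∈ R, (1 + (E v).indicator (1 : Ω → ℝ≥0∞) ω)) / 2 ^ s) (fun _ _ => zero_le) hR
  have hmp : ∀ R : Finset (V d),
      Measurable fun ω => ∏ v ∈ R, (1 + (E v).indicator (1 : Ω → ℝ≥0∞) ω) := fun R =>
    Finset.measurable_prod _ fun v _ => (hmi v).const_add 1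
  refine (lintegral_mono hpt).trans ?_
  rw [lintegral_add_left measurable_const, lintegral_const, measure_univ, mul_one,
    lintegral_finsetSum _ fun R _ => (hmp R).div_const _]
  have hq : r ^ d * ((L ^ d : ℕ) : ℝ≥0∞) ≤ 1 := by
    push_cast
    rw [← mul_pow, mul_comm]
    exact pow_le_one' hL2 d
  have hterm : ∀ R ∈ fam L k (0 : V d),
      ∫⁻ ω, (∏ v ∈ R, (1 + (E v).indicator (1 : Ω → ℝ≥0∞) ω)) / 2 ^ s ∂P ≤
        4 ^ (5 ^ d * k) / 2 ^ s := by
    intro R hR
    simp only [div_eq_mul_inv]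
    rw [lintegral_mul_const _ (hmp R)]
    gcongr
    refine (lintegral_prod_le P E hE hi _ hr R).trans ?_
    have hc : R.card ≤ L ^ d * (5 ^ d * k) := by
      refine (card_mem_fam L k 0 R hR).trans ?_
      have : (2 * (L + L) + 1) ^ d ≤ (L * 5) ^ d := Nat.pow_le_pow_left (by omega) d
      rw [mul_pow] at this
      nlinarith
    calc (1 + r ^ d) ^ R.card ≤ (1 + r ^ d) ^ (L ^ d * (5 ^ d * k)) :=
          pow_le_pow_right' le_self_add hc
      _ = ((1 + r ^ d) ^ (L ^ d)) ^ (5 ^ d * k) := pow_mul _ _ _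
      _ ≤ 4 ^ (5 ^ d * k) := by
          gcongr
          exact one_add_pow_le _ _ hq
  have hsum : ∑ R ∈ fam L k (0 : V d),
      ∫⁻ ω, (∏ v ∈ R, (1 + (E v).indicator (1 : Ω → ℝ≥0∞) ω)) / 2 ^ s ∂P ≤ 1 := by
    refine (Finset.sum_le_card_nsmul _ _ _ hterm).trans ?_
    rw [nsmul_eq_mul, ← mul_div_assoc]
    refine ENNReal.div_le_of_le_mul ?_
    rw [one_mul]
    have h6 : (fam L k (0 : V d)).card * 4 ^ (5 ^ d * k) ≤ 2 ^ s := by
      have h7 : (3 ^ d) ^ k ≤ 2 ^ (2 * d * k) := by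
        rw [mul_assoc, pow_mul, ← pow_mul 3]
        exact Nat.pow_le_pow_left (by norm_num) _
      rw [hs, pow_add, pow_mul 2 2 (5 ^ d * k)]
      exact Nat.mul_le_mul_right _ ((card_fam L k 0).trans h7)
    exact_mod_cast h6
  calc (s : ℝ≥0∞) + _ ≤ s + 1 := by gcongr
    _ ≤ ((2 * d + 2 * 5 ^ d + 1 : ℕ) : ℝ≥0∞) * k := by
        have : s + 1 ≤ (2 * d + 2 * 5 ^ d + 1) * k := by
          have : 1 ≤ k := by rw [hk]; exact Nat.le_add_left 1 _
          rw [hs]; nlinarith
        exact_mod_cast this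
    _ ≤ ((2 * d + 2 * 5 ^ d + 1 : ℕ) : ℝ≥0∞) * (4 * n * r) := by gcongr
    _ = ((4 * (2 * d + 2 * 5 ^ d + 1) : ℕ) : ℝ≥0∞) * n * r := by push_cast; ring
    _ ≤ _ := by
        gcongr
        exact (Nat.le_add_right _ _).trans (Nat.le_add_right _ _)

end Pool.Agent.H742Z.GP
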